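import Mathlib
import Pool.Agent.Work.MP_a54ca8_gt.Core

/-!
Composition of two earthquakes on the torus with one cone point (one particle).

A hyperbolic torus with one cone point of angle `θ < 2 * π` and two simple closed curves `a`, `b`
meeting once has the trace coordinates `x = 2 cosh (l a / 2)`, `y = 2 cosh (l b / 2)`,
`z = 2 cosh (l (a b) / 2)`. The commutator of `a` and `b` has the trace
`x ^ 2 + y ^ 2 + z ^ 2 - x y z - 2 = -2 cos (θ / 2)`.

The twist by `t` along `a` replaces the holonomy `B` of `b` by `exp (t / 2 * N) B` with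
`N = (2 A - x) / √(x ^ 2 - 4)`, whose square is `1`; so `exp (t / 2 * N) = cosh (t / 2) +
sinh (t / 2) N`, which gives the formulas of `quakeA`. The twist by `t` along `b`, in the same
direction, replaces `A` by `exp (-t / 2 * N') A` with `N' = (2 B - y) / √(y ^ 2 - 4)`: this is
`quakeB`.

With `T = tanh (t / 4)`, `S = tanh (s / 4)`, `U = x ^ 2 - 4`, `V = y ^ 2 - 4` and `k = 2 - κ`, a
point is fixed if and only if `2 z = x y - y T √U` and
`U V - 4 k = (V + 4) U T ^ 2 = (U + 4) V S ^ 2`. This system has exactly one positive solution.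
-/

namespace Pool.Agent.Results.MP_a54ca8_gt.OneParticleTorus

open Real Pool.Agent.Work.MP_a54ca8_gt

/-- Trace coordinates of the hyperbolic tori with one cone point (or one cusp, or one boundary
geodesic) for which the commutator of the two generators has trace `κ`. -/
def teich (κ : ℝ) : Set (ℝ × ℝ × ℝ) :=
  {p | 2 < p.1 ∧ 2 < p.2.1 ∧ 2 < p.2.2 ∧
    p.1 ^ 2 + p.2.1 ^ 2 + p.2.2 ^ 2 - p.1 * p.2.1 * p.2.2 - 2 = κ}

/-- The earthquake along the curve `a` with weight `t`. -/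
noncomputable def quakeA (t : ℝ) (p : ℝ × ℝ × ℝ) : ℝ × ℝ × ℝ :=
  (p.1,
   p.2.1 * cosh (t / 2) + (2 * p.2.2 - p.1 * p.2.1) / √(p.1 ^ 2 - 4) * sinh (t / 2),
   p.2.2 * cosh (t / 2) + (p.1 * p.2.2 - 2 * p.2.1) / √(p.1 ^ 2 - 4) * sinh (t / 2))

/-- The earthquake along the curve `b` with weight `t`, in the same direction. -/
noncomputable def quakeB (t : ℝ) (p : ℝ × ℝ × ℝ) : ℝ × ℝ × ℝ :=
  (p.1 * cosh (t / 2) + (p.1 * p.2.1 - 2 * p.2.2) / √(p.2.1 ^ 2 - 4) * sinh (t / 2),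
   p.2.1,
   p.2.2 * cosh (t / 2) + (2 * p.1 - p.2.1 * p.2.2) / √(p.2.1 ^ 2 - 4) * sinh (t / 2))

/-- The equations of a fixed point. -/
theorem fixed_iff (s t T S : ℝ) (hs : 0 < s) (ht : 0 < t)
    (hT1 : cosh (t / 2) - T * sinh (t / 2) = 1) (hT2 : sinh (t / 2) - T * cosh (t / 2) = T)
    (hS1 : cosh (s / 2) - S * sinh (s / 2) = 1) (hS2 : sinh (s / 2) - S * cosh (s / 2) = S)
    (x y z : ℝ) (hx : 2 < x) (hy : 2 < y) :
    quakeB s (quakeA t (x, y, z)) = (x, y, z) ↔
      2 * z = x * y - y * T * √(x ^ 2 - 4) ∧ y * T * √(x ^ 2 - 4) = x * S * √(y ^ 2 - 4) := by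
  have hXp : 0 < x ^ 2 - 4 := sq_sub_pos x hx
  have hYp : 0 < y ^ 2 - 4 := sq_sub_pos y hy
  have hX : 0 < √(x ^ 2 - 4) := sqrt_pos.2 hXp
  have hY : 0 < √(y ^ 2 - 4) := sqrt_pos.2 hYp
  have hX2 : √(x ^ 2 - 4) ^ 2 = x ^ 2 - 4 := sq_sqrt hXp.le
  have hY2 : √(y ^ 2 - 4) ^ 2 = y ^ 2 - 4 := sq_sqrt hYp.le
  have hsht : 0 < sinh (t / 2) := sinh_pos_iff.2 (by linarith)
  have hshs : 0 < sinh (s / 2) := sinh_pos_iff.2 (by linarith)
  set X := √(x ^ 2 - 4) with hXdef
  set Ct := cosh (t / 2)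
  set St := sinh (t / 2)
  set Cs := cosh (s / 2)
  set Ss := sinh (s / 2)
  -- the two coordinates after the first earthquake, if the first equation holds
  have key : 2 * z = x * y - y * T * X →
      y * Ct + (2 * z - x * y) / X * St = y ∧
      z * Ct + (x * z - 2 * y) / X * St = (x * y + y * T * X) / 2 := by
    intro h
    have h1 : (2 * z - x * y) / X = -(y * T) := by
      rw [div_eq_iff hX.ne']; linarith
    have h2 : (x * z - 2 * y) / X = y * (X - x * T) / 2 := by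
      rw [div_eq_iff hX.ne']
      have h3 : x * (2 * z) = x * (x * y - y * T * X) := by rw [h]
      nlinarith
    rw [h1, h2]
    constructor
    · linear_combination y * hT1
    · linear_combination (x * y / 2) * hT1 + (y * X / 2) * hT2 + (Ct / 2) * h
  constructor
  · intro h
    have e1 := congrArg Prod.fst h
    have e2 := congrArg (fun p : ℝ × ℝ × ℝ => p.2.1) h
    simp only [quakeA, quakeB] at e1 e2
    change y * Ct + (2 * z - x * y) / X * St = y at e2
    have h1 : (2 * z - x * y) / X = -(y * T) := by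
      have h4 : St * ((2 * z - x * y) / X + y * T) = 0 := by
        linear_combination e2 - y * hT1
      rcases mul_eq_zero.1 h4 with h5 | h5
      · exact absurd h5 hsht.ne'
      · linarith
    have h2 : 2 * z = x * y - y * T * X := by
      rw [div_eq_iff hX.ne'] at h1; linarith
    obtain ⟨k1, k2⟩ := key h2
    refine ⟨h2, ?_⟩
    have e3 : x * Cs + (x * (y * Ct + (2 * z - x * y) / X * St) -
        2 * (z * Ct + (x * z - 2 * y) / X * St)) /
        √((y * Ct + (2 * z - x * y) / X * St) ^ 2 - 4) * Ss = x := e1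
    rw [k1, k2] at e3
    set Y := √(y ^ 2 - 4) with hYdef
    have h6 : (x * y - 2 * ((x * y + y * T * X) / 2)) / Y = -(y * T * X) / Y := by
      congr 1; ring
    rw [h6] at e3
    have h7 : Ss * (x * S - y * T * X / Y) = 0 := by
      linear_combination e3 - x * hS1
    rcases mul_eq_zero.1 h7 with h8 | h8
    · exact absurd h8 hshs.ne'
    · have h9 : y * T * X / Y = x * S := by linarith
      rw [div_eq_iff hY.ne'] at h9
      exact h9
  · rintro ⟨h2, h3⟩
    obtain ⟨k1, k2⟩ := key h2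
    have hq : quakeA t (x, y, z) = (x, y, (x * y + y * T * X) / 2) := by
      simp only [quakeA]
      change (x, y * Ct + (2 * z - x * y) / X * St, z * Ct + (x * z - 2 * y) / X * St) = _
      rw [k1, k2]
    rw [hq]
    simp only [quakeB]
    set Y := √(y ^ 2 - 4) with hYdef
    have h4 : (x * y - 2 * ((x * y + y * T * X) / 2)) / Y = -(x * S) := by
      rw [div_eq_iff hY.ne']; linarith
    have h5 : (2 * x - y * ((x * y + y * T * X) / 2)) / Y = -(x * (Y + y * S)) / 2 := by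
      rw [div_eq_iff hY.ne', h3]
      nlinarith
    change (x * Cs + (x * y - 2 * ((x * y + y * T * X) / 2)) / Y * Ss, y,
      (x * y + y * T * X) / 2 * Cs + (2 * x - y * ((x * y + y * T * X) / 2)) / Y * Ss) = (x, y, z)
    rw [h4, h5]
    refine Prod.ext ?_ (Prod.ext rfl ?_)
    · change x * Cs + -(x * S) * Ss = x
      linear_combination x * hS1
    · change (x * y + y * T * X) / 2 * Cs + -(x * (Y + y * S)) / 2 * Ss = z
      linear_combination (Cs / 2) * h3 + (x * y / 2) * hS1 - (x * Y / 2) * hS2 - h2 / 2 + h3 / 2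

/-- For all weights `s, t > 0` the composition of the earthquake along `a` with weight `t` and the
earthquake along `b` with weight `s` has exactly one fixed point. -/
theorem result (κ : ℝ) (hκ : κ < 2) (s t : ℝ) (hs : 0 < s) (ht : 0 < t) :
    ∃! p : ℝ × ℝ × ℝ, p ∈ teich κ ∧ quakeB s (quakeA t p) = p := by
  obtain ⟨T, hT0, hT1, hT2, hT3⟩ := half t ht
  obtain ⟨S, hS0, hS1, hS2, hS3⟩ := half s hs
  have hk : 0 < 2 - κ := by linarith
  obtain ⟨U, V, hU, hV, e1, e2⟩ := core_exists (2 - κ) T S hk hT0 hT1 hS0 hS1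
  set x := √(U + 4) with hxdef
  set y := √(V + 4) with hydef
  have hx2 : x ^ 2 = U + 4 := sq_sqrt (by linarith)
  have hy2 : y ^ 2 = V + 4 := sq_sqrt (by linarith)
  have hx0 : 0 ≤ x := sqrt_nonneg _
  have hy0 : 0 ≤ y := sqrt_nonneg _
  have hx : 2 < x := two_lt_sqrt U hU
  have hy : 2 < y := two_lt_sqrt V hV
  have hUx : x ^ 2 - 4 = U := by linarith
  have hVy : y ^ 2 - 4 = V := by linarith
  have hsU : 0 < √U := sqrt_pos.2 hU
  have hsV : 0 < √V := sqrt_pos.2 hV
  have hsU2 : √U ^ 2 = U := sq_sqrt hU.le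
  have hsV2 : √V ^ 2 = V := sq_sqrt hV.le
  set z := (x * y - y * T * √U) / 2 with hz
  have h2z : 2 * z = x * y - y * T * √U := by rw [hz]; ring
  have hsUx : √U < x := sqrt_lt_sqrt_add U hU
  have hz0 : 0 < z := by
    have h1 : T * √U < √U := by
      calc T * √U < 1 * √U := mul_lt_mul_of_pos_right hT1 hsU
        _ = √U := one_mul _
    have h2 : 0 < y * (x - T * √U) := mul_pos (by linarith) (by linarith)
    have h3 : y * (x - T * √U) = 2 * z := by rw [h2z]; ring
    linarith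
  have hsq : (2 * z - x * y) ^ 2 = U * V - 4 * (2 - κ) := by
    rw [e1, ← hy2]
    have : 2 * z - x * y = -(y * T * √U) := by linarith
    rw [this]
    calc (-(y * T * √U)) ^ 2 = y ^ 2 * T ^ 2 * √U ^ 2 := by ring
      _ = y ^ 2 * T ^ 2 * U := by rw [hsU2]
      _ = y ^ 2 * U * T ^ 2 := by ring
  have heq : x ^ 2 + y ^ 2 + z ^ 2 - x * y * z - 2 = κ := by
    have h1 : U * V = (x ^ 2 - 4) * (y ^ 2 - 4) := by rw [hUx, hVy]
    rw [h1] at hsq
    linear_combination (1 / 4) * hsq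
  have hzz : 2 < z := by
    have h1 : (x ^ 2 - 4) * (z ^ 2 - 4) = (2 * y - x * z) ^ 2 + 4 * (2 - κ) := by
      linear_combination (-4) * heq
    have h2 : 0 < (x ^ 2 - 4) * (z ^ 2 - 4) := by
      rw [h1]; positivity
    have h3 : 0 < z ^ 2 - 4 := (pos_iff_pos_of_mul_pos h2).1 (by linarith)
    have h4 : (2 : ℝ) ^ 2 < z ^ 2 := by linarith
    exact lt_of_pow_lt_pow_left₀ 2 hz0.le h4
  have h3 : y * T * √U = x * S * √V := by
    have h4 : (y * T * √U) ^ 2 = (x * S * √V) ^ 2 := by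
      calc (y * T * √U) ^ 2 = y ^ 2 * √U ^ 2 * T ^ 2 := by ring
        _ = x ^ 2 * √V ^ 2 * S ^ 2 := by rw [hsU2, hsV2, hx2, hy2, ← e1, e2]
        _ = (x * S * √V) ^ 2 := by ring
    exact (pow_left_inj₀ (by positivity) (by positivity) two_ne_zero).1 h4
  refine ⟨(x, y, z), ⟨⟨hx, hy, hzz, heq⟩, ?_⟩, ?_⟩
  · rw [fixed_iff s t T S hs ht hT2 hT3 hS2 hS3 x y z hx hy, hUx, hVy]
    exact ⟨h2z, h3⟩
  · rintro ⟨x', y', z'⟩ ⟨⟨hx', hy', hz', heq'⟩, hfix⟩
    simp only at hx' hy' hz' heq'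
    rw [fixed_iff s t T S hs ht hT2 hT3 hS2 hS3 x' y' z' hx' hy'] at hfix
    obtain ⟨f1, f2⟩ := hfix
    have hU' : 0 < x' ^ 2 - 4 := sq_sub_pos x' hx'
    have hV' : 0 < y' ^ 2 - 4 := sq_sub_pos y' hy'
    have g1 : √(x' ^ 2 - 4) ^ 2 = x' ^ 2 - 4 := sq_sqrt hU'.le
    have g2 : √(y' ^ 2 - 4) ^ 2 = y' ^ 2 - 4 := sq_sqrt hV'.le
    have c0 : (x' ^ 2 - 4) * (y' ^ 2 - 4) - 4 * (2 - κ) = (y' * T * √(x' ^ 2 - 4)) ^ 2 := by
      have : y' * T * √(x' ^ 2 - 4) = x' * y' - 2 * z' := by linarith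
      rw [this]
      linear_combination (-4) * heq'
    have c1 : (x' ^ 2 - 4) * (y' ^ 2 - 4) - 4 * (2 - κ)
        = ((y' ^ 2 - 4) + 4) * (x' ^ 2 - 4) * T ^ 2 := by
      rw [c0]
      calc (y' * T * √(x' ^ 2 - 4)) ^ 2 = y' ^ 2 * √(x' ^ 2 - 4) ^ 2 * T ^ 2 := by ring
        _ = _ := by rw [g1]; ring
    have c2 : (x' ^ 2 - 4) * (y' ^ 2 - 4) - 4 * (2 - κ)
        = ((x' ^ 2 - 4) + 4) * (y' ^ 2 - 4) * S ^ 2 := by
      rw [c0, f2]
      calc (x' * S * √(y' ^ 2 - 4)) ^ 2 = x' ^ 2 * √(y' ^ 2 - 4) ^ 2 * S ^ 2 := by ring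
        _ = _ := by rw [g2]; ring
    obtain ⟨u1, u2⟩ := core_unique (2 - κ) T S (x' ^ 2 - 4) (y' ^ 2 - 4) U V hk hT0 hT1 hS0 hS1
      hU' hV' hU hV c1 c2 e1 e2
    have hxx : x' = x := by
      have : x' ^ 2 = x ^ 2 := by linarith
      exact (pow_left_inj₀ (by linarith) hx0 two_ne_zero).1 this
    have hyy : y' = y := by
      have : y' ^ 2 = y ^ 2 := by linarith
      exact (pow_left_inj₀ (by linarith) hy0 two_ne_zero).1 this
    have hzz' : z' = z := by
      rw [u1, hxx, hyy] at f1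
      linarith
    rw [hxx, hyy, hzz']

end Pool.Agent.Results.MP_a54ca8_gt.OneParticleTorus
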